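import Pool.Agent.helper36.PP.SpecM

/-!
# Project pp: (MP_70a088_an), module TRU
-/

set_option autoImplicit false

open Complex Metric Set Filter Topology MeasureTheory MPS MQ Pool.Agent.helper98.ILF

noncomputable section

namespace PPS

theorem TRU_diff (f : Polynomial ℂ) (m : ℕ) : Differentiable ℂ (it f m) := by
  induction m with
  | zero =>
    have : it f 0 = id := rfl
    rw [this]
    exact differentiable_id
  | succ n ih =>
    have : it f (n + 1) = it f n ∘ (fun w : ℂ => f.eval w) := by
      unfold it
      rw [Function.iterate_succ]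
    rw [this]
    exact ih.comp f.differentiable

theorem TRU_add (f : Polynomial ℂ) (i j : ℕ) (z : ℂ) : it f (i + j) z = it f i (it f j z) := by
  unfold it
  rw [Function.iterate_add_apply]

theorem TRU_step (f : Polynomial ℂ) (k : ℕ) (q : ℂ) (hk : 0 < k) (hq : it f k q = q) :
    it f k (f.eval q) = f.eval q ∧ deriv (it f k) (f.eval q) = deriv (it f k) q := by
  obtain ⟨m, rfl⟩ : ∃ m, k = m + 1 := ⟨k - 1, by omega⟩
  have h1 : it f (m + 1) = it f m ∘ (fun w : ℂ => f.eval w) := by
    unfold it
    rw [Function.iterate_succ]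
  have h2 : it f (m + 1) = (fun w : ℂ => f.eval w) ∘ it f m := by
    unfold it
    rw [Function.iterate_succ']
  have h3 : it f m (f.eval q) = q := by
    have := congrFun h1 q
    rw [hq] at this
    exact this.symm
  constructor
  · have := congrFun h2 (f.eval q)
    rw [this, Function.comp_apply, h3]
  · have e1 : deriv (it f (m + 1)) q = deriv (it f m) (f.eval q) * deriv (fun w : ℂ => f.eval w) q := by
      rw [h1]
      exact deriv_comp q (TRU_diff f m _) (f.differentiable _)
    have e2 : deriv (it f (m + 1)) (f.eval q) =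
        deriv (fun w : ℂ => f.eval w) (it f m (f.eval q)) * deriv (it f m) (f.eval q) := by
      rw [h2]
      exact deriv_comp (f.eval q) (f.differentiable _) (TRU_diff f m _)
    rw [e1, e2, h3, mul_comm]

theorem TRU (hTRA : TRA_stmt) : TRU_stmt := by
  intro f p x hp hx
  refine ⟨?_, ?_⟩
  · obtain ⟨k, hk, hper, hd⟩ := hp
    intro i
    have key : it f k (it f i p) = it f i p ∧ deriv (it f k) (it f i p) = deriv (it f k) p := by
      induction i with
      | zero => exact ⟨hper, rfl⟩
      | succ n ih =>
        have hs : it f (n + 1) p = f.eval (it f n p) := by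
          have : it f (n + 1) = (fun w : ℂ => f.eval w) ∘ it f n := by
            unfold it
            rw [Function.iterate_succ']
          rw [this]; rfl
        obtain ⟨h1, h2⟩ := TRU_step f k (it f n p) hk ih.1
        rw [hs]
        exact ⟨h1, h2.trans ih.2⟩
    exact ⟨k, hk, key.1, by rw [key.2]; exact hd⟩
  · obtain ⟨_, δ, hδ, hA⟩ := hTRA f p hp
    obtain ⟨k, hk, hper, hd⟩ := hp
    have hmul : ∀ j : ℕ, it f (k * j) p = p := by
      intro j
      unfold it at hper ⊢
      rw [Function.iterate_mul]
      exact Function.iterate_fixed hper j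
    have h1 : ∀ᶠ m in atTop, ‖it f m x - it f m p‖ < δ := by
      have := (hx.norm).eventually (gt_mem_nhds (by simpa using hδ : ‖(0 : ℂ)‖ < δ))
      exact this
    obtain ⟨N, hN⟩ := eventually_atTop.1 h1
    have hm₁ : N ≤ k * N := Nat.le_mul_of_pos_left N hk
    set m₁ := k * N with hm₁def
    have h2 : ‖it f m₁ x - p‖ < δ := by
      have := hN m₁ hm₁
      rwa [hmul N] at this
    have h3 : ∀ᶠ z in 𝓝 x, ‖it f m₁ z - p‖ < δ := by
      have hc : ContinuousAt (fun z => ‖it f m₁ z - p‖) x :=
        (((TRU_diff f m₁).continuous.sub continuous_const).norm).continuousAt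
      exact hc.eventually (gt_mem_nhds h2)
    obtain ⟨r₀, hr₀, h4⟩ := Metric.eventually_nhds_iff.1 h3
    refine ⟨r₀ / 2, by linarith, fun ε hε => ?_⟩
    obtain ⟨M, hM⟩ := hA ε hε
    refine ⟨m₁ + M, fun m hm z hz => ?_⟩
    have h5 : ‖it f m₁ z - p‖ < δ := by
      apply h4
      rw [dist_eq_norm]
      linarith
    have h6 := hM (m - m₁) (by omega) (it f m₁ z) h5
    have h7 : it f m z = it f (m - m₁) (it f m₁ z) := by
      rw [← TRU_add]; congr 1; omega
    have h8 : it f m p = it f (m - m₁) p := by
      have : it f m p = it f (m - m₁) (it f m₁ p) := by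
        rw [← TRU_add]; congr 1; omega
      rw [this, hmul N]
    rw [h7, h8]
    exact h6

end PPS
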